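import Mathlib

set_option autoImplicit false

namespace Pool.Agent.H.MP_21b6c8_co
open Finset

section
variable {V E K : Type} [Fintype E] [Fintype K] [DecidableEq E]

/-- the pairing of a vector with a difference -/
def pr (p a b : K → ℤ) : ℤ := ∑ c, p c * (a c - b c)

/-- a linear relation among the edge equations -/
def Stress (x y : E → V) (π : E → K → ℤ) (l : E → ℤ) : Prop :=
  ∀ a : V → K → ℤ, ∑ e, l e * pr (π e) (a (x e)) (a (y e)) = 0

/-- no nonzero relation is supported in the set -/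
def Indep (x y : E → V) (π : E → K → ℤ) (S : Finset E) : Prop :=
  ∀ l : E → ℤ, (∀ e, e ∉ S → l e = 0) → Stress x y π l → l = 0

theorem exists_stress (m : ℕ) (x y : E → Fin (m + 1)) (π : E → K → ℤ)
    (h : m * Fintype.card K < Fintype.card E) : ∃ l : E → ℤ, l ≠ 0 ∧ Stress x y π l := by
  classical
  let r : E → (Fin m × K → ℤ) := fun e p =>
    ((if x e = p.1.succ then 1 else 0) - (if y e = p.1.succ then 1 else 0)) * π e p.2
  have hdep : ¬ LinearIndependent ℤ r := by
    intro hli
    have := hli.fintype_card_le_finrank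
    simp at this
    omega
  obtain ⟨g, hg, e0, he0⟩ := Fintype.not_linearIndependent_iff.1 hdep
  refine ⟨g, fun h0 => he0 (by simp [h0]), fun a => ?_⟩
  have key : ∀ (w : Fin (m + 1)) (c : K),
      ∑ v : Fin m, (if w = v.succ then 1 else 0) * (a v.succ c - a 0 c) = a w c - a 0 c := by
    intro w c
    refine Fin.cases ?_ (fun w => ?_) w
    · simp [(Fin.succ_ne_zero _).symm]
    · simp [Fin.succ_inj]
  have h1 : ∀ e, g e * pr (π e) (a (x e)) (a (y e))
      = ∑ p : Fin m × K, (g e * r e p) * (a p.1.succ p.2 - a 0 p.2) := by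
    intro e
    rw [Fintype.sum_prod_type_right, pr, mul_sum]
    refine sum_congr rfl fun c _ => ?_
    have h2 : a (x e) c - a (y e) c = (a (x e) c - a 0 c) - (a (y e) c - a 0 c) := by ring
    rw [h2, ← key (x e) c, ← key (y e) c, ← sum_sub_distrib, mul_sum, mul_sum]
    refine sum_congr rfl fun v _ => ?_
    simp only [r]
    ring
  simp_rw [h1]
  rw [sum_comm]
  refine sum_eq_zero fun p _ => ?_
  rw [← sum_mul]
  have := congrFun hg p
  simp only [Finset.sum_apply, Pi.smul_apply, smul_eq_mul, Pi.zero_apply] at this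
  rw [this, zero_mul]

/-- perturbing one edge vector -/
def pert (π : E → K → ℤ) (e1 : E) (δ : K → ℤ) (t : ℤ) : E → K → ℤ :=
  fun e c => π e c + (if e = e1 then t * δ c else 0)

theorem sum_pert (x y : E → V) (π : E → K → ℤ) (e1 : E) (δ : K → ℤ) (t : ℤ) (l : E → ℤ)
    (a : V → K → ℤ) :
    ∑ e, l e * pr (pert π e1 δ t e) (a (x e)) (a (y e))
      = ∑ e, l e * pr (π e) (a (x e)) (a (y e)) + l e1 * t * pr δ (a (x e1)) (a (y e1)) := by
  have h1 : ∀ e, l e * pr (pert π e1 δ t e) (a (x e)) (a (y e))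
      = l e * pr (π e) (a (x e)) (a (y e))
        + (if e = e1 then l e1 * t * pr δ (a (x e1)) (a (y e1)) else 0) := by
    intro e
    by_cases he : e = e1
    · subst he
      simp only [pr, pert, if_true, mul_sum, ← sum_add_distrib]
      refine sum_congr rfl fun c _ => ?_
      ring
    · simp [pr, pert, he]
  simp_rw [h1]
  rw [sum_add_distrib]
  simp

theorem bad_subsingleton (x y : E → V) (π : E → K → ℤ) (e1 : E) (δ : K → ℤ) (I : Finset E)
    (hI : Indep x y π I) : Set.Subsingleton {t : ℤ | ¬ Indep x y (pert π e1 δ t) I} := by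
  have key : ∀ t : ℤ, ¬ Indep x y (pert π e1 δ t) I → ∃ l : E → ℤ, (∀ e, e ∉ I → l e = 0) ∧
      Stress x y (pert π e1 δ t) l ∧ l e1 ≠ 0 := by
    intro t ht
    simp only [Indep, not_forall] at ht
    obtain ⟨l, hl, hs, hne⟩ := ht
    refine ⟨l, hl, hs, fun h0 => hne (hI l hl fun a => ?_)⟩
    have := hs a
    rw [sum_pert, h0] at this
    simpa using this
  intro t1 ht1 t2 ht2
  obtain ⟨l1, hl1, hs1, hn1⟩ := key t1 ht1
  obtain ⟨l2, hl2, hs2, hn2⟩ := key t2 ht2
  have h0 := hI (fun e => t2 * l2 e1 * l1 e - t1 * l1 e1 * l2 e)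
    (fun e he => by simp [hl1 e he, hl2 e he]) (fun a => by
      have h1 := hs1 a
      have h2 := hs2 a
      rw [sum_pert] at h1 h2
      have h3 : ∑ e, (t2 * l2 e1 * l1 e - t1 * l1 e1 * l2 e) * pr (π e) (a (x e)) (a (y e))
          = t2 * l2 e1 * ∑ e, l1 e * pr (π e) (a (x e)) (a (y e))
            - t1 * l1 e1 * ∑ e, l2 e * pr (π e) (a (x e)) (a (y e)) := by
        rw [mul_sum, mul_sum, ← sum_sub_distrib]
        refine sum_congr rfl fun e _ => ?_
        ring
      rw [h3]
      linear_combination (t2 * l2 e1) * h1 - (t1 * l1 e1) * h2)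
  have h4 := congrFun h0 e1
  simp only [Pi.zero_apply] at h4
  have h5 : (t2 - t1) * (l1 e1 * l2 e1) = 0 := by linear_combination h4
  rcases mul_eq_zero.1 h5 with h | h
  · linarith
  · exact absurd h (mul_ne_zero hn1 hn2)

/-- generic edge vectors make every circuit rigid -/
theorem exists_generic (x y : E → V) : ∃ π : E → K → ℤ, ∀ S : Finset E, ¬ Indep x y π S →
    (∀ e ∈ S, Indep x y π (S.erase e)) → ∀ a : V → K → ℤ,
    (∀ e ∈ S, pr (π e) (a (x e)) (a (y e)) = 0) → ∀ e ∈ S, a (x e) = a (y e) := by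
  classical
  let g : (E → K → ℤ) → ℕ := fun π => (univ.filter fun S => ¬ Indep x y π S).card
  obtain ⟨π, -, hπ⟩ := (InvImage.wf g Nat.lt_wfRel.wf).has_min Set.univ ⟨0, trivial⟩
  refine ⟨π, fun S hS hS' a ha e1 he1 => ?_⟩
  by_contra hne
  let δ : K → ℤ := fun c => a (x e1) c - a (y e1) c
  have hδ : pr δ (a (x e1)) (a (y e1)) ≠ 0 := by
    intro h0
    apply hne
    funext c
    have h1 := (sum_eq_zero_iff_of_nonneg (fun c _ => mul_self_nonneg (δ c))).1 h0 c (mem_univ _)
    have h2 : δ c = 0 := mul_self_eq_zero.1 h1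
    simp only [δ] at h2
    linarith
  have hfin : (({0} : Set ℤ) ∪ ⋃ I ∈ {I : Finset E | Indep x y π I},
      {t : ℤ | ¬ Indep x y (pert π e1 δ t) I}).Finite :=
    (Set.finite_singleton 0).union ((Set.toFinite _).biUnion fun I hI =>
      (bad_subsingleton x y π e1 δ I hI).finite)
  obtain ⟨t, ht⟩ := hfin.exists_notMem
  simp only [Set.mem_union, Set.mem_singleton_iff, Set.mem_iUnion, Set.mem_ofPred_eq, not_or,
    not_exists, not_not] at ht
  obtain ⟨ht0, ht1⟩ := ht
  apply hπ (pert π e1 δ t) trivial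
  show g _ < g _
  apply card_lt_card
  rw [ssubset_iff_of_subset]
  · refine ⟨S, by simpa using hS, ?_⟩
    simp only [mem_filter, mem_univ, true_and, not_not]
    intro l hl hs
    have h1 := hs a
    rw [sum_pert] at h1
    have h2 : ∑ e, l e * pr (π e) (a (x e)) (a (y e)) = 0 := by
      refine sum_eq_zero fun e _ => ?_
      by_cases he : e ∈ S
      · rw [ha e he, mul_zero]
      · rw [hl e he, zero_mul]
    rw [h2, zero_add] at h1
    have h3 : l e1 = 0 := by
      rcases mul_eq_zero.1 h1 with h | h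
      · rcases mul_eq_zero.1 h with h | h
        · exact h
        · exact absurd h ht0
      · exact absurd h hδ
    refine hS' e1 he1 l (fun e he => ?_) (fun b => ?_)
    · by_cases h : e = e1
      · rw [h, h3]
      · exact hl e (fun h' => he (mem_erase.2 ⟨h, h'⟩))
    · have := hs b
      rw [sum_pert, h3] at this
      simpa using this
  · intro I hI
    simp only [mem_filter, mem_univ, true_and] at hI ⊢
    exact fun h => hI (ht1 I h)

/-- points on a sphere whose mean is one of them coincide -/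
theorem sphere_eq {D : Type} [Fintype D] (R : Finset V) (v0 : V) (b : V → D → ℤ)
    (hb : ∀ v, ∑ s, b v s ^ 2 = ∑ s, b v0 s ^ 2)
    (h : ∀ s, ∑ v ∈ R, (b v s - b v0 s) = 0) : ∀ v ∈ R, b v = b v0 := by
  have h1 : ∑ v ∈ R, ∑ s, (b v s - b v0 s) ^ 2 = 0 := by
    have h2 : ∀ v, ∑ s, (b v s - b v0 s) ^ 2 = ∑ s, (-2 * b v0 s) * (b v s - b v0 s) := by
      intro v
      have h3 : ∑ s, (b v s - b v0 s) ^ 2
          = ∑ s, (-2 * b v0 s) * (b v s - b v0 s) + (∑ s, b v s ^ 2 - ∑ s, b v0 s ^ 2) := by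
        rw [← sum_sub_distrib, ← sum_add_distrib]
        refine sum_congr rfl fun s _ => ?_
        ring
      rw [h3, hb v]
      ring
    simp_rw [h2]
    rw [sum_comm]
    refine sum_eq_zero fun s _ => ?_
    rw [← mul_sum, h s, mul_zero]
  intro v hv
  funext s
  have h4 := (sum_eq_zero_iff_of_nonneg (fun v _ => sum_nonneg fun s _ => sq_nonneg _)).1 h1 v hv
  have h5 := (sum_eq_zero_iff_of_nonneg (fun s _ => sq_nonneg _)).1 h4 s (mem_univ _)
  have h6 := pow_eq_zero_iff (two_ne_zero) |>.1 h5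
  linarith

/-- the key linear algebra lemma -/
theorem exists_rho (m : ℕ) (x y : E → Fin (m + 1)) (h : m * Fintype.card K < Fintype.card E) :
    ∃ (ρ : E → Option K → ℤ) (S : Finset E), S.Nonempty ∧ ∀ (d : ℕ)
      (a : Fin (m + 1) → Option K → Fin d → ℤ),
      (∀ v w, ∑ s, a v none s ^ 2 = ∑ s, a w none s ^ 2) →
      (∀ e ∈ S, ∀ s, ∑ c, ρ e c * (a (x e) c s - a (y e) c s) = 0) →
      ∀ e ∈ S, a (x e) = a (y e) := by
  classical
  obtain ⟨π, hπ⟩ := exists_generic (K := K) x y
  obtain ⟨l0, hl0⟩ := exists_stress m x y π h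
  let g : (E → ℤ) → ℕ := fun l => (univ.filter fun e => l e ≠ 0).card
  obtain ⟨l, ⟨hl, hs⟩, hmin⟩ := (InvImage.wf g Nat.lt_wfRel.wf).has_min
    {l | l ≠ 0 ∧ Stress x y π l} ⟨l0, hl0⟩
  set S := univ.filter fun e => l e ≠ 0 with hSdef
  have hSm : ∀ e, e ∈ S ↔ l e ≠ 0 := by simp [hSdef]
  have hdep : ¬ Indep x y π S := fun hI => hl (hI l (fun e he => by simpa [hSm] using he) hs)
  have hind : ∀ e ∈ S, Indep x y π (S.erase e) := by
    intro e he l' hl' hs'
    by_contra hne
    apply hmin l' ⟨hne, hs'⟩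
    show g _ < g _
    refine lt_of_le_of_lt (card_le_card (t := S.erase e) fun e' he' => ?_) (card_erase_lt_of_mem he)
    by_contra h'
    exact (mem_filter.1 he').2 (hl' e' h')
  obtain ⟨e0, he0⟩ : S.Nonempty := by
    by_contra hS
    apply hl
    funext e
    by_contra h'
    exact hS ⟨e, (hSm e).2 h'⟩
  let P : Fin (m + 1) → (E → ℤ) → Prop := fun v f => (∀ e, e ∉ S → f e = 0) ∧
    ∀ b : Fin (m + 1) → ℤ, ∑ e, f e * (b (x e) - b (y e)) = b v - b (x e0)
  let R : Finset (Fin (m + 1)) := univ.filter fun v => ∃ f, P v f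
  have hR0 : x e0 ∈ R := by
    simp only [R, mem_filter, mem_univ, true_and]
    exact ⟨0, fun _ _ => rfl, fun b => by simp⟩
  have hstep : ∀ e ∈ S, (x e ∈ R ↔ y e ∈ R) := by
    intro e he
    have aux : ∀ (f : E → ℤ) (t : ℤ) (b : Fin (m + 1) → ℤ),
        ∑ e', (f e' + if e' = e then t else 0) * (b (x e') - b (y e'))
          = ∑ e', f e' * (b (x e') - b (y e')) + t * (b (x e) - b (y e)) := by
      intro f t b
      simp only [add_mul, sum_add_distrib, ite_mul, zero_mul]
      simp
    have aux2 : ∀ (f : E → ℤ) (t : ℤ), (∀ e, e ∉ S → f e = 0) →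
        ∀ e', e' ∉ S → (f e' + if e' = e then t else 0) = 0 := by
      intro f t hf e' he'
      have : e' ≠ e := fun h => he' (h ▸ he)
      simp [hf e' he', this]
    simp only [R, mem_filter, mem_univ, true_and]
    constructor
    · rintro ⟨f, hf1, hf2⟩
      refine ⟨fun e' => f e' + if e' = e then -1 else 0, aux2 f _ hf1, fun b => ?_⟩
      rw [aux, hf2]; ring
    · rintro ⟨f, hf1, hf2⟩
      refine ⟨fun e' => f e' + if e' = e then 1 else 0, aux2 f _ hf1, fun b => ?_⟩
      rw [aux, hf2]; ring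
  have hall : ∀ e ∈ S, x e ∈ R := by
    intro e he
    by_contra hxe
    have h0 := hind e he (fun e' => if x e' ∈ R then l e' else 0) (fun e' he' => by
      by_cases h1 : e' = e
      · simp [h1, hxe]
      · have : e' ∉ S := fun h' => he' (mem_erase.2 ⟨h1, h'⟩)
        have : l e' = 0 := by simpa [hSm] using this
        simp [this]) (fun a => by
      have h2 := hs (fun v => if v ∈ R then a v else 0)
      refine Eq.trans (sum_congr rfl fun e' _ => ?_) h2
      by_cases h3 : e' ∈ S
      · by_cases h4 : x e' ∈ R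
        · simp [h4, (hstep e' h3).1 h4]
        · have h5 : y e' ∉ R := fun h => h4 ((hstep e' h3).2 h)
          simp [h4, h5, pr]
      · have : l e' = 0 := by simpa [hSm] using h3
        simp [this])
    have h6 := congrFun h0 e0
    simp only [hR0, if_true, Pi.zero_apply] at h6
    exact (hSm e0).1 he0 h6
  have hch : ∀ v, ∃ f, v ∈ R → P v f := by
    intro v
    by_cases hv : v ∈ R
    · obtain ⟨f, hf⟩ := (mem_filter.1 hv).2
      exact ⟨f, fun _ => hf⟩
    · exact ⟨0, fun h => absurd h hv⟩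
  choose F hF using hch
  let f : E → ℤ := fun e => ∑ v ∈ R, F v e
  have hf1 : ∀ e, e ∉ S → f e = 0 := fun e he => sum_eq_zero fun v hv => (hF v hv).1 e he
  have hf2 : ∀ b : Fin (m + 1) → ℤ,
      ∑ e, f e * (b (x e) - b (y e)) = ∑ v ∈ R, (b v - b (x e0)) := by
    intro b
    simp only [f, sum_mul]
    rw [sum_comm]
    exact sum_congr rfl fun v hv => (hF v hv).2 b
  refine ⟨fun e c => c.elim (f e) (fun c => l e * π e c), S, ⟨e0, he0⟩, fun d a ha he => ?_⟩
  have heq : ∀ e s, f e * (a (x e) none s - a (y e) none s)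
      + l e * pr (π e) (fun c => a (x e) (some c) s) (fun c => a (y e) (some c) s) = 0 := by
    intro e s
    by_cases h1 : e ∈ S
    · have := he e h1 s
      rw [Fintype.sum_option] at this
      rw [← this, pr, mul_sum]
      simp only [Option.elim, mul_assoc]
    · have : l e = 0 := by simpa [hSm] using h1
      simp [this, hf1 e h1]
  have hb := sphere_eq R (x e0) (fun v => a v none) (fun v => ha v _) (fun s => by
    rw [← hf2 (fun v => a v none s)]
    have h1 := hs (fun v c => a v (some c) s)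
    have h2 := sum_eq_zero (s := univ) fun e _ => heq e s
    rw [sum_add_distrib] at h2
    linarith)
  have hb2 : ∀ e ∈ S, a (x e) none = a (y e) none := fun e he =>
    (hb _ (hall e he)).trans (hb _ ((hstep e he).1 (hall e he))).symm
  intro e he1
  funext c s
  cases c with
  | none => rw [hb2 e he1]
  | some c =>
    have := hπ S hdep hind (fun v c => a v (some c) s) (fun e' he' => by
      have h1 := heq e' s
      rw [hb2 e' he', sub_self, mul_zero, zero_add] at h1
      exact (mul_eq_zero.1 h1).resolve_left ((hSm e').1 he')) e he1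
    exact congrFun this c

end
end Pool.Agent.H.MP_21b6c8_co
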