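import Mathlib

set_option autoImplicit false

namespace Pool.Agent.H.MP_21b6c8_co
open Finset

/-- every collision pattern on at most m+1 words of the code has a trivial collision -/
def PHF {ι α : Type} (m : ℕ) (C : Finset (ι → α)) : Prop :=
  ∀ a : Fin (m + 1) → ι → α, (∀ v, a v ∈ C) → ∀ x y : ι → Fin (m + 1),
    (∀ i, a (x i) i = a (y i) i) → ∃ i, a (x i) = a (y i)

theorem union_bound {β : Type} [DecidableEq β] (k : ℕ) (T : Finset (Finset β)) (hT : T.Nonempty)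
    (hk : ∀ X ∈ T, X.card ≤ k) (z : Finset β → β) (hz : ∀ X ∈ T, z X ∉ X)
    (hz' : ∀ X ∈ T, ∀ Y ∈ T, Y ≠ X → z X ∈ Y) : (T.biUnion id).card ≤ (k + 2) ^ 2 / 4 := by
  have hinj : Set.InjOn z T := by
    intro X hX Y hY h
    by_contra hne
    exact hz Y hY (h ▸ hz' X hX Y hY (Ne.symm hne))
  set Z := T.image z with hZ
  have hZc : Z.card = T.card := card_image_of_injOn hinj
  have ht : 1 ≤ T.card := hT.card_pos
  have h1 : ∀ X ∈ T, (X \ Z).card + (T.card - 1) ≤ k := by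
    intro X hX
    have h2 : ((T.erase X).image z).card = T.card - 1 := by
      rw [card_image_of_injOn (hinj.mono (by simp)), card_erase_of_mem hX]
    have h3 : (T.erase X).image z ⊆ X ∩ Z := by
      intro c hc
      obtain ⟨Y, hY, rfl⟩ := mem_image.1 hc
      obtain ⟨hY1, hY2⟩ := mem_erase.1 hY
      exact mem_inter.2 ⟨hz' Y hY2 X hX (Ne.symm hY1), mem_image_of_mem _ hY2⟩
    have h4 := card_le_card h3
    have h5 := card_sdiff_add_card_inter X Z
    have h6 := hk X hX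
    omega
  have h7 : T.biUnion id ⊆ Z ∪ T.biUnion (fun X => X \ Z) := by
    intro c hc
    obtain ⟨X, hX, hc⟩ := mem_biUnion.1 hc
    by_cases h : c ∈ Z
    · exact mem_union_left _ h
    · exact mem_union_right _ (mem_biUnion.2 ⟨X, hX, mem_sdiff.2 ⟨hc, h⟩⟩)
  obtain ⟨X0, hX0⟩ := hT
  obtain ⟨r, hr⟩ : ∃ r, r + T.card = k + 1 := ⟨k + 1 - T.card, by have := h1 X0 hX0; omega⟩
  have h8 : (T.biUnion (fun X => X \ Z)).card ≤ T.card * r :=
    card_biUnion_le_card_mul _ _ _ fun X hX => by have := h1 X hX; omega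
  have h9 := (card_le_card h7).trans (card_union_le _ _)
  rw [Nat.le_div_iff_mul_le (by norm_num)]
  have h10 : k + 2 = r + T.card + 1 := by omega
  rw [h10]
  have h11 : (T.card + T.card * r) * 4 ≤ (r + T.card + 1) ^ 2 := by
    nlinarith [sq_nonneg ((r : ℤ) + 1 - T.card)]
  nlinarith

theorem ipp_of_phf {ι α : Type} [Fintype ι] [Nonempty ι] [DecidableEq α]
    (k m : ℕ) (hm : m + 1 = (k + 2) ^ 2 / 4) (C : Finset (ι → α)) (hC : PHF m C) (x : ι → α)
    (hx : ∃ X : Finset (ι → α), X ⊆ C ∧ X.card ≤ k ∧ ∀ i, ∃ y ∈ X, y i = x i) :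
    ∃ c ∈ C, ∀ X : Finset (ι → α), X ⊆ C → X.card ≤ k → (∀ i, ∃ y ∈ X, y i = x i) → c ∈ X := by
  classical
  by_contra hcon
  let good : Finset (ι → α) → Prop := fun X => X ⊆ C ∧ X.card ≤ k ∧ ∀ i, ∃ y ∈ X, y i = x i
  let Q : Finset (Finset (ι → α)) → Prop := fun T => (∀ X ∈ T, good X) ∧ ∀ c, ∃ X ∈ T, c ∉ X
  have hQ : Q (C.powerset.filter good) := by
    refine ⟨fun X hX => (mem_filter.1 hX).2, fun c => ?_⟩
    by_cases hc : c ∈ C
    · by_contra h
      refine hcon ⟨c, hc, fun X h1 h2 h3 => ?_⟩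
      by_contra h4
      exact h ⟨X, mem_filter.2 ⟨mem_powerset.2 h1, h1, h2, h3⟩, h4⟩
    · obtain ⟨X, h1, h2, h3⟩ := hx
      exact ⟨X, mem_filter.2 ⟨mem_powerset.2 h1, h1, h2, h3⟩, fun h => hc (h1 h)⟩
  obtain ⟨T, ⟨hT1, hT2⟩, hmin⟩ := (InvImage.wf Finset.card Nat.lt_wfRel.wf).has_min
    {T | Q T} ⟨_, hQ⟩
  have hz : ∀ X, ∃ c, X ∈ T → ∀ Y ∈ T, Y ≠ X → c ∈ Y := by
    intro X
    by_cases hX : X ∈ T
    · by_contra h
      refine hmin (T.erase X) ⟨fun Y hY => hT1 Y (mem_of_mem_erase hY), fun c => ?_⟩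
        (card_erase_lt_of_mem hX)
      by_contra h'
      refine h ⟨c, fun _ Y hY hne => ?_⟩
      by_contra h''
      exact h' ⟨Y, mem_erase.2 ⟨hne, hY⟩, h''⟩
    · exact ⟨x, fun h => absurd h hX⟩
  choose z hz using hz
  have hz2 : ∀ X ∈ T, z X ∉ X := by
    intro X hX h
    obtain ⟨Y, hY, h'⟩ := hT2 (z X)
    by_cases h1 : Y = X
    · exact h' (h1 ▸ h)
    · exact h' (hz X hX Y hY h1)
  obtain ⟨X0, hX0, -⟩ := hT2 x
  have hb := union_bound k T ⟨X0, hX0⟩ (fun X hX => (hT1 X hX).2.1) z hz2 hz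
  set U := T.biUnion id with hU
  have hcol : ∀ i, ∃ y y' : U, y ≠ y' ∧ y.1 i = y'.1 i := by
    intro i
    obtain ⟨y, hy, h1⟩ := (hT1 X0 hX0).2.2 i
    obtain ⟨Y, hY, h2⟩ := hT2 y
    obtain ⟨y', hy', h3⟩ := (hT1 Y hY).2.2 i
    refine ⟨⟨y, mem_biUnion.2 ⟨X0, hX0, hy⟩⟩, ⟨y', mem_biUnion.2 ⟨Y, hY, hy'⟩⟩, fun h => ?_,
      h1.trans h3.symm⟩
    have : y = y' := congrArg Subtype.val h
    exact h2 (this ▸ hy')
  choose y y' hne heq using hcol
  have : Nonempty U := ⟨y (Classical.arbitrary ι)⟩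
  obtain ⟨emb⟩ := Function.Embedding.nonempty_of_card_le (α := U) (β := Fin (m + 1))
    (by simpa [hm] using hb)
  have hl := Function.leftInverse_invFun emb.injective
  obtain ⟨i, hi⟩ := hC (fun v => (Function.invFun emb v).1) (fun v => by
      obtain ⟨X, hX, h⟩ := mem_biUnion.1 (Function.invFun emb v).2
      exact (hT1 X hX).1 h) (fun i => emb (y i)) (fun i => emb (y' i))
    (fun i => by simp only [hl _]; exact heq i)
  simp only [hl _] at hi
  exact hne i (Subtype.ext hi)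

end Pool.Agent.H.MP_21b6c8_co
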