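import Mathlib
import Pool.Agent.H.MP_21b6c8_co.LA
import Pool.Agent.H.MP_21b6c8_co.Red

set_option autoImplicit false

namespace Pool.Agent.H.MP_21b6c8_co
open Finset

section
variable {H K ι : Type} [Fintype H] [DecidableEq H] [Fintype K] [DecidableEq K]

/-- the symbol of a word at a coordinate -/
def sym {D d : ℕ} (ρ : H → ι → K → ℤ) (w : (H → Fin (D + 1)) → K → Fin d → ℕ) (i : ι) :
    (H → Fin (D + 1)) → Fin d → ℤ :=
  fun y s => ∑ h, ∑ c, ρ h i c * (w (y + Pi.single h 1) c s : ℤ)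

/-- the words -/
def words (H K : Type) [Fintype H] [DecidableEq H] [Fintype K] [DecidableEq K] (D : ℕ) {d : ℕ}
    (B : Finset (Fin d → ℕ)) (s0 : Fin d → ℕ) : Finset ((H → Fin (D + 1)) → K → Fin d → ℕ) :=
  Fintype.piFinset fun z => if ∀ h, z h ≠ 0 then Fintype.piFinset (fun _ => B) else {fun _ => s0}

theorem card_words (D : ℕ) {d : ℕ} (B : Finset (Fin d → ℕ)) (s0 : Fin d → ℕ) :
    (words H K D B s0).card = B.card ^ (Fintype.card K * D ^ Fintype.card H) := by
  rw [words, Fintype.card_piFinset]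
  simp only [apply_ite Finset.card, Fintype.card_piFinset, card_singleton, prod_const, card_univ]
  rw [prod_ite, prod_const_one, mul_one, prod_const, ← pow_mul]
  congr 2
  have : (univ.filter fun z : H → Fin (D + 1) => ∀ h, z h ≠ 0)
      = Fintype.piFinset fun _ => univ.erase 0 := by
    ext z
    simp
  rw [this, Fintype.card_piFinset]
  simp

theorem words_mem {D d : ℕ} {B : Finset (Fin d → ℕ)} {s0 : Fin d → ℕ} (h0 : s0 ∈ B)
    {w : (H → Fin (D + 1)) → K → Fin d → ℕ} (hw : w ∈ words H K D B s0) (z : H → Fin (D + 1))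
    (c : K) : w z c ∈ B := by
  have := Fintype.mem_piFinset.1 hw z
  split_ifs at this
  · exact Fintype.mem_piFinset.1 this c
  · rw [mem_singleton.1 this]; exact h0

theorem words_eq {D d : ℕ} {B : Finset (Fin d → ℕ)} {s0 : Fin d → ℕ}
    {w : (H → Fin (D + 1)) → K → Fin d → ℕ} (hw : w ∈ words H K D B s0) (z : H → Fin (D + 1))
    (h : H) (hz : z h = 0) : w z = fun _ => s0 := by
  have := Fintype.mem_piFinset.1 hw z
  rw [if_neg (fun h' => h' h hz)] at this
  exact mem_singleton.1 this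

theorem key_step {V : Type} {D d : ℕ} {B : Finset (Fin d → ℕ)} {s0 : Fin d → ℕ} (h0 : s0 ∈ B)
    (ρ : H → ι → K → ℤ) (h : H) (S : Finset ι) (x y : ι → V)
    (hρ : ∀ a : V → K → Fin d → ℕ, (∀ v c, a v c ∈ B) →
      (∀ e ∈ S, ∀ s, ∑ c, ρ h e c * ((a (x e) c s : ℤ) - a (y e) c s) = 0) →
      ∀ e ∈ S, a (x e) = a (y e))
    (a : V → (H → Fin (D + 1)) → K → Fin d → ℕ) (ha : ∀ v, a v ∈ words H K D B s0)
    (hs : ∀ e ∈ S, sym ρ (a (x e)) e = sym ρ (a (y e)) e) : ∀ e ∈ S, a (x e) = a (y e) := by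
  classical
  by_contra hne
  have hZ : (univ.filter fun z => ∃ e ∈ S, a (x e) z ≠ a (y e) z).Nonempty := by
    by_contra hZ
    refine hne fun e he => funext fun z => ?_
    by_contra h'
    exact hZ ⟨z, mem_filter.2 ⟨mem_univ _, e, he, h'⟩⟩
  obtain ⟨z, hz, hmin⟩ := exists_min_image _ (fun z : H → Fin (D + 1) => (z h).val) hZ
  obtain ⟨e1, he1, hz1⟩ := (mem_filter.1 hz).2
  have hz0 : z h ≠ 0 := fun h' => hz1 ((words_eq (ha _) z h h').trans (words_eq (ha _) z h h').symm)
  refine hz1 (hρ (fun v => a v z) (fun v c => words_mem h0 (ha v) z c) (fun e he s => ?_) e1 he1)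
  have h1 := congrFun (congrFun (hs e he) (z - Pi.single h 1)) s
  simp only [sym] at h1
  rw [← sub_eq_zero, ← sum_sub_distrib, sum_eq_single h] at h1
  · rw [sub_add_cancel, ← sum_sub_distrib] at h1
    simpa only [mul_sub] using h1
  · intro h' _ hh
    have h2 : a (x e) (z - Pi.single h 1 + Pi.single h' 1)
        = a (y e) (z - Pi.single h 1 + Pi.single h' 1) := by
      by_contra h3
      have h4 := hmin _ (mem_filter.2 ⟨mem_univ _, e, he, h3⟩)
      simp only [Pi.add_apply, Pi.sub_apply, Pi.single_eq_same, Pi.single_eq_of_ne hh.symm,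
        add_zero] at h4
      rw [Fin.coe_sub_one, if_neg hz0] at h4
      have : (z h).val ≠ 0 := fun h5 => hz0 (Fin.ext h5)
      omega
    rw [h2, sub_self]
  · simp

theorem sym_bound [Fintype ι] {D d N : ℕ} (ρ : H → ι → K → ℤ)
    (w : (H → Fin (D + 1)) → K → Fin d → ℕ) (hw : ∀ z c s, w z c s < N) (i : ι)
    (y : H → Fin (D + 1)) (s : Fin d) :
    |sym ρ w i y s| ≤ ((∑ i, ∑ h, ∑ c, (ρ h i c).natAbs : ℕ) : ℤ) * N := by
  have h1 : |sym ρ w i y s| ≤ ∑ h, ∑ c, |ρ h i c| * N := by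
    refine (abs_sum_le_sum_abs _ _).trans (sum_le_sum fun h _ => ?_)
    refine (abs_sum_le_sum_abs _ _).trans (sum_le_sum fun c _ => ?_)
    rw [abs_mul, Nat.abs_cast]
    exact mul_le_mul_of_nonneg_left (by exact_mod_cast (hw _ _ _).le) (abs_nonneg _)
  refine h1.trans ?_
  simp only [← sum_mul]
  refine mul_le_mul_of_nonneg_right ?_ (Nat.cast_nonneg _)
  push_cast
  exact single_le_sum (f := fun i => ∑ h, ∑ c, |ρ h i c|)
    (fun i _ => sum_nonneg fun h _ => sum_nonneg fun c _ => abs_nonneg _) (mem_univ i)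

end

theorem exists_code (m j l : ℕ) (hm : 1 ≤ m) (h : m * j < l) : ∃ T c : ℕ, ∀ D d N q : ℕ,
    1 ≤ d → 1 ≤ N → (2 * c * N + 1) ^ (d * (D + 1) ^ T) ≤ q → ∃ C : Finset (Fin l → Fin q),
      PHF m C ∧ ((N : ℝ) ^ d / (d * N ^ 2)) ^ ((j + 1) * D ^ T) ≤ C.card := by
  classical
  let H := Fin l → Fin (m + 1) × Fin (m + 1)
  have hLA := fun g : H => exists_rho (E := Fin l) (K := Fin j) m (fun i => (g i).1)
    (fun i => (g i).2) (by simpa using h)
  choose ρ S hS hρ using hLA
  refine ⟨Fintype.card H, ∑ i, ∑ g, ∑ c, (ρ g i c).natAbs, fun D d N q hd hN hq => ?_⟩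
  set c : ℕ := ∑ i, ∑ g, ∑ c, (ρ g i c).natAbs with hc
  obtain ⟨k, hk⟩ := Behrend.exists_large_sphere d N
  set B := Behrend.sphere d N k with hB
  have hpos : (0 : ℝ) < (N : ℝ) ^ d / (d * N ^ 2) := by positivity
  have hk' : (N : ℝ) ^ d / (d * N ^ 2) ≤ B.card := by exact_mod_cast hk
  obtain ⟨s0, h0⟩ : B.Nonempty := card_pos.1 (by exact_mod_cast hpos.trans_le hk')
  have hBm : ∀ b ∈ B, (∀ s, b s < N) ∧ ∑ s, b s ^ 2 = k := fun b hb =>
    ⟨Behrend.mem_box.1 (mem_filter.1 hb).1, (mem_filter.1 hb).2⟩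
  set W := words H (Option (Fin j)) D B s0 with hW
  let A : Finset ((H → Fin (D + 1)) → Fin d → ℤ) :=
    Fintype.piFinset fun _ => Fintype.piFinset fun _ => Icc (-((c : ℤ) * N)) (c * N)
  have hA : A.card ≤ q := by
    refine le_trans (le_of_eq ?_) hq
    simp only [A, Fintype.card_piFinset, prod_const, card_univ, Int.card_Icc, Fintype.card_fin,
      Fintype.card_fun, ← pow_mul]
    congr 1
    have : (c : ℤ) * N + 1 - -((c : ℤ) * N) = ((2 * c * N + 1 : ℕ) : ℤ) := by push_cast; ring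
    rw [this, Int.toNat_natCast]
  obtain ⟨emb⟩ := Function.Embedding.nonempty_of_card_le (α := A) (β := Fin q)
    (by simpa using hA)
  have hsA : ∀ (w : W) (i : Fin l), sym ρ w.1 i ∈ A := by
    intro w i
    refine Fintype.mem_piFinset.2 fun y => Fintype.mem_piFinset.2 fun s => ?_
    rw [mem_Icc, ← abs_le]
    exact sym_bound ρ w.1 (fun z c s => (hBm _ (words_mem h0 w.2 z c)).1 s) i y s
  let Ψ : W → Fin l → Fin q := fun w i => emb ⟨sym ρ w.1 i, hsA w i⟩
  have key : ∀ (a : Fin (m + 1) → W) (x y : Fin l → Fin (m + 1)),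
      (∀ i, Ψ (a (x i)) i = Ψ (a (y i)) i) → ∃ i, a (x i) = a (y i) := by
    intro a x y hxy
    obtain ⟨e, he⟩ := hS (fun i => (x i, y i))
    refine ⟨e, Subtype.ext ?_⟩
    refine key_step h0 ρ (fun i => (x i, y i)) (S fun i => (x i, y i)) x y (fun b hb hb' => ?_)
      (fun v => (a v).1) (fun v => (a v).2)
      (fun e _ => congrArg Subtype.val (emb.injective (hxy e))) e he
    intro e' he'
    have := hρ (fun i => (x i, y i)) d (fun v c s => (b v c s : ℤ)) (fun v w => by
      have h1 := (hBm _ (hb v none)).2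
      have h2 := (hBm _ (hb w none)).2
      exact_mod_cast h1.trans h2.symm) hb' e' he'
    funext c s
    exact_mod_cast congrFun (congrFun this c) s
  have hinj : Function.Injective Ψ := by
    intro w w' hw
    have h10 : Fin.last m ≠ 0 := fun h => by
      have := congrArg Fin.val h
      simp at this
      omega
    obtain ⟨i, hi⟩ := key (fun v => if v = 0 then w else w') (fun _ => 0) (fun _ => Fin.last m)
      (fun i => by simp [h10, hw])
    simpa [h10] using hi
  refine ⟨univ.image Ψ, fun a ha x y hxy => ?_, ?_⟩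
  · have : ∀ v, ∃ w, Ψ w = a v := fun v => by simpa using ha v
    choose w hw using this
    obtain ⟨i, hi⟩ := key w x y (fun i => by rw [hw, hw]; exact hxy i)
    exact ⟨i, by rw [← hw, ← hw, hi]⟩
  · rw [card_image_of_injective _ hinj, card_univ, Fintype.card_coe, hW, card_words]
    push_cast
    simp only [Fintype.card_option, Fintype.card_fin]
    exact pow_le_pow_left₀ hpos.le hk' _

end Pool.Agent.H.MP_21b6c8_co
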